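import Pool.Agent.Lib.MP_688fd0_co.LIN.Iface2
import Pool.Agent.Lib.MP_688fd0_co.LP.Cycle

/-!
Linear length in all Cayley graphs, module GEOC (helper34): a cycle of length about the diameter.
-/

set_option autoImplicit false

namespace Pool.Agent.Lib.MP_688fd0_co.LIN.H34

open Classical
open Pool.Agent.Lib.MP_688fd0_co.LP Pool.Agent.Lib.MP_688fd0_co.LP.Cycle

universe u

section
variable {V : Type u} {G : SimpleGraph V}

lemma geo_adj [Fintype V] {γ : ℕ → V} {D t : ℕ} (hg : Geo G γ D) (h : t + 1 ≤ D) : G.Adj (γ t) (γ (t + 1)) := by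
  have := hg t (t + 1) (Nat.le_succ t) h
  rw [← SimpleGraph.dist_eq_one_iff_adj, this]
  omega

lemma geo_inj [Fintype V] {γ : ℕ → V} {D s t : ℕ} (hg : Geo G γ D) (hs : s ≤ D) (ht : t ≤ D)
    (h : γ s = γ t) : s = t := by
  rcases Nat.le_total s t with hst | hst
  · have := hg s t hst ht
    rw [h, SimpleGraph.dist_self] at this
    omega
  · have := hg t s hst hs
    rw [h, SimpleGraph.dist_self] at this
    omega

/-- a segment of a geodesic as a path -/
lemma geo_path [Fintype V] {γ : ℕ → V} {D s : ℕ} (hg : Geo G γ D) :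
    ∀ n, s + n ≤ D → IsPB G ((List.range' s (n + 1)).map γ) (γ s) (γ (s + n)) := by
  intro n
  induction n with
  | zero =>
    intro _
    exact isPB_singleton (γ s)
  | succ n ih =>
    intro h
    have h1 := ih (by omega)
    rw [List.range'_1_concat, List.map_append]
    refine isPB_append h1 (isPB_singleton _) (geo_adj hg (by omega)) ?_
    intro x hx hx'
    simp only [List.mem_map, List.mem_range'_1, List.mem_singleton] at hx hx'
    obtain ⟨t, ht, rfl⟩ := hx
    obtain ⟨k, rfl, hk⟩ := hx'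
    have := geo_inj hg (by omega) (by omega) hk
    omega

/-- closing a path by an edge -/
lemma cyc_of_isPB {l : List V} {a b : V} (h : IsPB G l a b) (hadj : G.Adj b a) (h3 : 3 ≤ l.length) : Cyc G l :=
  ⟨h.1, h3, a, b, h.2.1, h.2.2, hadj⟩

end

/-- GEOC from RING and the existence of geodesics. -/
theorem geoc (hring : RingStatement.{u}) (hgeo : GeoStatement.{u}) : GeocStatement.{u} := by
  intro V _ G hG D hD r w hw hlin hlong
  obtain ⟨x0, y0, hxy⟩ := hD.2
  obtain ⟨γ, -, -, hγ⟩ := (hgeo V G hG D hD).1 x0 y0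
  rw [hxy] at hγ
  have hw1 : 1 ≤ w := by omega
  have h0 : ∀ t ≤ D, G.dist (γ 0) (γ t) = t := by
    intro t ht
    have := hγ 0 t (Nat.zero_le _) ht
    simpa using this
  obtain ⟨Q, hQ, hQa, hQb, hQM⟩ := hring V G r w D γ (D / 4) (D / 4 + D / 2)
    ⟨hG, hw, hlin, hγ, by omega⟩ hD (by omega) (by omega) (by omega) (by omega)
  have hPB : IsPB G Q (γ (D / 4)) (γ (D / 4 + D / 2)) := ⟨hQ, hQa, hQb⟩
  set a := D / 4 with ha
  set b := D / 4 + D / 2 with hb
  have hbD : b ≤ D := by omega
  -- the last vertex of `Q` on the first part of the geodesic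
  obtain ⟨s, q1, t, rfl, ⟨t1, ht1a, ht1b, rfl⟩, hq1⟩ := exists_last (l := Q)
    (fun x => ∃ t, a ≤ t ∧ t < a + 5 * w ∧ x = γ t) ⟨γ a, isPB_left hPB, a, le_rfl, by omega, rfl⟩
  have hS := isPB_reverse (isPB_suffix hPB)
  -- the next vertex on the last part of the geodesic
  obtain ⟨s', q2, t', he, ⟨t2, ht2a, ht2b, rfl⟩, hq2⟩ := exists_last (l := (γ t1 :: t).reverse)
    (fun x => ∃ t, b < t + 5 * w ∧ t ≤ b ∧ x = γ t) ⟨γ b, isPB_left hS, b, by omega, le_rfl, rfl⟩
  rw [he] at hS
  have hR := isPB_suffix hS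
  have hmem : ∀ x ∈ γ t2 :: t', x ∈ γ t1 :: t := by
    intro x hx
    rw [← List.mem_reverse, he]
    exact List.mem_append_right _ hx
  -- the inner part of the geodesic between them
  have hP := geo_path (s := t1 + 1) hγ (t2 - t1 - 2) (by omega)
  have e1 : t1 + 1 + (t2 - t1 - 2) = t2 - 1 := by omega
  have e2 : t2 - t1 - 2 + 1 = t2 - t1 - 1 := by omega
  rw [e1, e2] at hP
  have hC : IsPB G ((γ t2 :: t') ++ (List.range' (t1 + 1) (t2 - t1 - 1)).map γ) (γ t2) (γ (t2 - 1)) := by
    refine isPB_append hR hP (geo_adj hγ (by omega)) ?_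
    intro x hx hx'
    simp only [List.mem_map, List.mem_range'_1] at hx'
    obtain ⟨k, hk, rfl⟩ := hx'
    have hkD : k ≤ D := by omega
    by_cases hk1 : k < a + 5 * w
    · rcases List.mem_cons.1 (hmem _ hx) with h | h
      · have := geo_inj hγ hkD (by omega) h
        omega
      · exact hq1 _ h ⟨k, by omega, hk1, rfl⟩
    · by_cases hk2 : b < k + 5 * w
      · rcases List.mem_cons.1 hx with h | h
        · have := geo_inj hγ hkD (by omega) h
          omega
        · exact hq2 _ h ⟨k, hk2, by omega, rfl⟩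
      · refine hQM (γ k) (List.mem_append_right _ (hmem _ hx)) ⟨?_, ?_, ?_⟩
        · unfold om
          simp only [Finset.mem_filter, Finset.mem_univ, true_and]
          exact ⟨k, by omega, by omega, by rw [SimpleGraph.dist_self]; exact Nat.zero_le _⟩
        · rw [h0 k hkD]; omega
        · rw [h0 k hkD]; omega
  have hlen : ((γ t2 :: t') ++ (List.range' (t1 + 1) (t2 - t1 - 1)).map γ).length = t'.length + 1 + (t2 - t1 - 1) := by
    simp only [List.length_append, List.length_cons, List.length_map, List.length_range']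
  have hadj : G.Adj (γ (t2 - 1)) (γ t2) := by
    have := geo_adj (t := t2 - 1) hγ (by omega)
    rwa [show t2 - 1 + 1 = t2 by omega] at this
  refine ⟨_, cyc_of_isPB hC hadj (by rw [hlen]; omega), ?_⟩
  rw [hlen]
  omega

end Pool.Agent.Lib.MP_688fd0_co.LIN.H34
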